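import Pool.Agent.PZD.Hyper

/-!
# PZG (MP_89ee62_ag): general Perazzo forms satisfy the half degree criterion
-/

set_option autoImplicit false

namespace Pool.Agent.PZG

open MvPolynomial Pool.Agent.PZD

section Norm

variable {m : ℕ}

/-- squared Euclidean norm of an exponent vector -/
def nrm (c : Fin m →₀ ℕ) : ℕ := ∑ j, (c j) ^ 2

lemma sq_add_le (x y : ℕ) : (x + y) ^ 2 ≤ 2 * x ^ 2 + 2 * y ^ 2 := by
  zify
  nlinarith [sq_nonneg ((x : ℤ) - y)]

lemma nrm_add_le (a b : Fin m →₀ ℕ) : nrm (a + b) ≤ 2 * nrm a + 2 * nrm b := by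
  unfold nrm
  rw [Finset.mul_sum, Finset.mul_sum, ← Finset.sum_add_distrib]
  apply Finset.sum_le_sum
  intro j _
  exact sq_add_le _ _

lemma nrm_add_eq {a b : Fin m →₀ ℕ} (h : nrm (a + b) = 2 * nrm a + 2 * nrm b) : a = b := by
  unfold nrm at h
  rw [Finset.mul_sum, Finset.mul_sum, ← Finset.sum_add_distrib] at h
  have h1 : ∀ j ∈ (Finset.univ : Finset (Fin m)),
      ((a + b) j) ^ 2 ≤ 2 * (a j) ^ 2 + 2 * (b j) ^ 2 := by
    intro j _
    exact sq_add_le _ _
  have h2 := (Finset.sum_eq_sum_iff_of_le h1).1 h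
  ext j
  have h3 := h2 j (Finset.mem_univ j)
  rw [Finsupp.add_apply] at h3
  have h4 : ((a j : ℤ) - b j) ^ 2 = 0 := by
    have h5 : ((a j : ℤ) + b j) ^ 2 = 2 * (a j : ℤ) ^ 2 + 2 * (b j : ℤ) ^ 2 := by exact_mod_cast h3
    linarith [h5, sq (a j - b j : ℤ)]
  have h5 : (a j : ℤ) - b j = 0 := by
    exact pow_eq_zero_iff (two_ne_zero) |>.1 h4
  omega

/-- only the identity permutation has maximal weight -/
lemma perm_eq_one {S : Type} [Fintype S] (f : S → (Fin m →₀ ℕ)) (hf : Function.Injective f)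
    (σ : Equiv.Perm S) (h : ∑ i, nrm (f (σ i) + f i) = ∑ i, nrm (f i + f i)) : σ = 1 := by
  have h0 : ∑ i, nrm (f (σ i)) = ∑ i, nrm (f i) := Equiv.sum_comp σ (fun i => nrm (f i))
  have h1 : ∀ i ∈ (Finset.univ : Finset S),
      nrm (f (σ i) + f i) ≤ 2 * nrm (f (σ i)) + 2 * nrm (f i) := fun i _ => nrm_add_le _ _
  have h2 : ∀ i, nrm (f i + f i) = 2 * nrm (f i) + 2 * nrm (f i) := by
    intro i
    unfold nrm
    rw [Finset.mul_sum, ← Finset.sum_add_distrib]
    apply Finset.sum_congr rfl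
    intro j _
    rw [Finsupp.add_apply]
    ring
  have h3 : ∑ i, nrm (f (σ i) + f i) = ∑ i, (2 * nrm (f (σ i)) + 2 * nrm (f i)) := by
    rw [h, Finset.sum_congr rfl (fun i _ => h2 i), Finset.sum_add_distrib, Finset.sum_add_distrib,
      ← Finset.mul_sum, ← Finset.mul_sum, h0]
  have h4 := (Finset.sum_eq_sum_iff_of_le h1).1 h3
  ext i
  exact hf (nrm_add_eq (h4 i (Finset.mem_univ i)))

end Norm

/-- the matrix of powers of `t` is nonsingular -/
lemma det_pow_ne_zero {m : ℕ} {K : Type} [Field K] {S : Type} [Fintype S] [DecidableEq S]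
    (f : S → (Fin m →₀ ℕ)) (hf : Function.Injective f) :
    (Matrix.of fun a b : S => (Polynomial.X : Polynomial K) ^ nrm (f a + f b)).det ≠ 0 := by
  intro h
  have h1 := congrArg (fun P => Polynomial.coeff P (∑ i, nrm (f i + f i))) h
  rw [Matrix.det_apply'] at h1
  simp only [Matrix.of_apply, Finset.prod_pow_eq_pow_sum, Polynomial.finsetSum_coeff,
    Polynomial.coeff_zero] at h1
  rw [Finset.sum_eq_single (1 : Equiv.Perm S)] at h1
  · simp at h1
  · intro σ _ hσ
    have h2 : (∑ i, nrm (f (σ i) + f i)) ≠ ∑ i, nrm (f i + f i) :=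
      fun h3 => hσ (perm_eq_one f hf σ h3)
    rw [Polynomial.coeff_intCast_mul, Polynomial.coeff_X_pow, if_neg (Ne.symm h2), mul_zero]
  · intro h2
    exact absurd (Finset.mem_univ _) h2

end Pool.Agent.PZG
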