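import Pool.Agent.PZG.Gen

/-!
# PZG (MP_89ee62_ag): the half degree criterion and general forms
-/

set_option autoImplicit false

namespace Pool.Agent.PZG

open MvPolynomial Pool.Agent.PZD

variable {n m : ℕ} {K : Type} [Field K]

/-- half degree criterion: for some `θ ≠ 0` every form `q` of degree `⌊d/2⌋` in `K[u_1, …, u_m]`
which kills all `∑ a_i p_i` with `∑ θ_i a_i = 0` kills all `p_i` -/
def HalfCrit (d : ℕ) (p : Fin (n + 1) → (Pu m K →ₗ[K] K)) : Prop :=
  ∃ θ : Fin (n + 1) → K, θ ≠ 0 ∧ ∀ q ∈ Hs (Fin m) K (d / 2),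
    (∀ a : Fin (n + 1) → K, ∑ i, θ i * a i = 0 → ∀ r, ∑ i, a i * p i (q * r) = 0) →
      ∀ i r, p i (q * r) = 0

/-- exponent vectors of the monomials of degree `e` in the first `m'` of `m` variables -/
abbrev Expo (m m' e : ℕ) : Type :=
  {c : Fin m →₀ ℕ // c.degree = e ∧ ∀ j : Fin m, m' ≤ (j : ℕ) → c j = 0}

/-- the coefficients of `p_0, …, p_n` at the monomials of degree `e` in the first `m'` variables -/
noncomputable def coefs (m' e : ℕ) (p : Fin (n + 1) → (Pu m K →ₗ[K] K)) :
    Fin (n + 1) × Expo m m' e → K :=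
  fun v => p v.1 (monomial v.2.1 1)

lemma KT_of {θ : Fin (n + 1) → K} {p : Fin (n + 1) → (Pu m K →ₗ[K] K)} {q : Pu m K}
    (h : KT θ p q) (hθ : θ ≠ 0) (a : Fin (n + 1) → K) (ha : ∑ i, θ i * a i = 0) (r : Pu m K) :
    ∑ i, a i * p i (q * r) = 0 := by
  obtain ⟨i0, hi0⟩ : ∃ i0, θ i0 ≠ 0 := by
    by_contra hne
    push Not at hne
    exact hθ (funext hne)
  have h1 : θ i0 * ∑ i, a i * p i (q * r) = p i0 (q * r) * ∑ i, θ i * a i := by
    rw [Finset.mul_sum, Finset.mul_sum]
    apply Finset.sum_congr rfl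
    intro i _
    linear_combination (a i) * h i0 i r
  rw [ha, mul_zero] at h1
  exact (mul_eq_zero.1 h1).resolve_left hi0

lemma doubling_of_half {d : ℕ} {F : Rg n m K →ₗ[K] K} {p : Fin (n + 1) → (Pu m K →ₗ[K] K)}
    {g : Pu m K →ₗ[K] K} (hF : IsPerazzo d F p g) (hd : 1 ≤ d) (h : HalfCrit d p) :
    IsDoublingOfPoints (Ann F) := by
  obtain ⟨θ, hθ, hq⟩ := h
  exact hF.doubling hd θ hθ (HT_of_half hd hF.hp θ
    (fun q hq1 hq2 => hq q hq1 (fun a ha r => KT_of hq2 hθ a ha r)))

lemma half_of_KT {d : ℕ} {p : Fin (n + 1) → (Pu m K →ₗ[K] K)}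
    (h : ∃ θ : Fin (n + 1) → K, θ ≠ 0 ∧ ∀ q ∈ Hs (Fin m) K (d / 2), KT θ p q → KA p q) :
    HalfCrit d p := by
  classical
  obtain ⟨θ, hθ, hq⟩ := h
  refine ⟨θ, hθ, fun q hq1 hq2 => hq q hq1 ?_⟩
  intro i j r
  rcases eq_or_ne i j with rfl | hij
  · rfl
  have h1 := hq2 (Pi.single j (θ i) - Pi.single i (θ j)) (by
    simp only [Pi.sub_apply, mul_sub, Finset.sum_sub_distrib, Pi.single_apply, mul_ite, mul_zero,
      Finset.sum_ite_eq', Finset.mem_univ, if_true]
    ring) r
  simp only [Pi.sub_apply, sub_mul, Finset.sum_sub_distrib, Pi.single_apply, ite_mul, zero_mul,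
    Finset.sum_ite_eq', Finset.mem_univ, if_true] at h1
  linear_combination h1

section Generic

lemma mono_kill {m' : ℕ} {q0 : Pu m K →ₗ[K] K}
    (h : ∀ j : Fin m, m' ≤ (j : ℕ) → ∀ r, q0 (X j * r) = 0) {s : Fin m →₀ ℕ} {j : Fin m}
    (hj : m' ≤ (j : ℕ)) (hs : s j ≠ 0) (c : K) (r : Pu m K) : q0 (monomial s c * r) = 0 := by
  classical
  have h1 : (monomial s c : Pu m K) = X j * monomial (s - Finsupp.single j 1) c := by
    rw [X, monomial_mul, one_mul, add_tsub_cancel_of_le]
    rw [Finsupp.single_le_iff]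
    omega
  rw [h1, mul_assoc]
  exact h j hj _

theorem generic_aux {m' d k : ℕ} {S : Finset (Fin m →₀ ℕ)}
    (hS : ∀ a : Fin m →₀ ℕ, a ∈ S ↔ a.degree = k ∧ ∀ j : Fin m, m' ≤ (j : ℕ) → a j = 0)
    (ι : S → Fin (n + 1)) (β : S → (Fin m →₀ ℕ)) (w : Fin (n + 1) → (Fin m →₀ ℕ) → ℕ)
    (hι : ∀ a, ι a ≠ 0) (hβ : ∀ a, k + (β a).degree = d - 1)
    (hβ' : ∀ a, ∀ j : Fin m, m' ≤ (j : ℕ) → β a j = 0)
    (hw : ∀ a b : S, w (ι a) (b.1 + β a) = nrm (a.1 + b.1)) :
    ∃ Φ : MvPolynomial (Fin (n + 1) × Expo m m' (d - 1)) K, Φ ≠ 0 ∧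
      ∀ p : Fin (n + 1) → (Pu m K →ₗ[K] K),
        (∀ i, ∀ j : Fin m, m' ≤ (j : ℕ) → ∀ r, p i (X j * r) = 0) →
        eval (coefs m' (d - 1) p) Φ ≠ 0 →
        ∀ q ∈ Hs (Fin m) K k, (∀ i, i ≠ 0 → ∀ r, p i (q * r) = 0) → KA p q := by
  classical
  have hmem : ∀ a b : S, (b.1 + β a).degree = d - 1 ∧
      ∀ j : Fin m, m' ≤ (j : ℕ) → (b.1 + β a) j = 0 := by
    intro a b
    have hb := (hS b.1).1 b.2
    refine ⟨?_, ?_⟩
    · rw [map_add, hb.1, hβ a]
    · intro j hj
      rw [Finsupp.add_apply, hb.2 j hj, hβ' a j hj]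
  set M : Matrix S S (MvPolynomial (Fin (n + 1) × Expo m m' (d - 1)) K) :=
    Matrix.of fun a b => X (ι a, ⟨b.1 + β a, hmem a b⟩) with hM
  refine ⟨M.det, ?_, ?_⟩
  · intro h
    apply det_pow_ne_zero (K := K) (S := S) (fun a => a.1) Subtype.val_injective
    have h1 := congrArg (aeval (fun v : Fin (n + 1) × Expo m m' (d - 1) =>
      (Polynomial.X : Polynomial K) ^ w v.1 v.2.1)) h
    rw [AlgHom.map_det, map_zero] at h1
    rw [← h1]
    congr 1
    ext1 a b
    rw [AlgHom.mapMatrix_apply, Matrix.map_apply, hM, Matrix.of_apply, Matrix.of_apply, aeval_X]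
    rw [hw a b]
  · intro p hp hdet q hq hk
    have hdet' : (Matrix.of fun a b : S => p (ι a) (monomial (b.1 + β a) 1)).det ≠ 0 := by
      have h1 : eval (coefs m' (d - 1) p) M.det =
          (Matrix.of fun a b : S => p (ι a) (monomial (b.1 + β a) 1)).det := by
        rw [RingHom.map_det]
        congr 1
        ext1 a b
        rw [RingHom.mapMatrix_apply, Matrix.map_apply, hM, Matrix.of_apply, Matrix.of_apply, eval_X]
        rfl
      rwa [h1] at hdet
    have hcoef : ∀ s ∈ q.support, s.degree = k := by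
      intro s hs
      have := hq (mem_support_iff.1 hs)
      rwa [Finsupp.degree_eq_weight_one]
    have hv : (Matrix.of fun a b : S => p (ι a) (monomial (b.1 + β a) 1)).mulVec
        (fun b : S => coeff b.1 q) = 0 := by
      ext a
      rw [Pi.zero_apply, Matrix.mulVec, dotProduct]
      have h1 : p (ι a) (q * monomial (β a) 1) = 0 := hk _ (hι a) _
      rw [← h1]
      have h2 : q * monomial (β a) 1 = ∑ s ∈ q.support, monomial (s + β a) (coeff s q) := by
        conv_lhs => rw [← support_sum_monomial_coeff q]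
        rw [Finset.sum_mul]
        apply Finset.sum_congr rfl
        intro s _
        rw [monomial_mul, mul_one]
      rw [h2, map_sum]
      have h3 : ∀ s : Fin m →₀ ℕ, p (ι a) (monomial (s + β a) (coeff s q)) =
          p (ι a) (monomial (s + β a) 1) * coeff s q := by
        intro s
        have : (monomial (s + β a) (coeff s q) : Pu m K) =
            coeff s q • monomial (s + β a) 1 := by
          rw [smul_monomial, smul_eq_mul, mul_one]
        rw [this, map_smul, smul_eq_mul, mul_comm]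
      have h4 : ∑ b : S, p (ι a) (monomial (b.1 + β a) 1) * coeff b.1 q =
          ∑ s ∈ S, p (ι a) (monomial (s + β a) 1) * coeff s q :=
        Finset.sum_coe_sort S (fun s => p (ι a) (monomial (s + β a) 1) * coeff s q)
      simp only [Matrix.of_apply]
      rw [h4, Finset.sum_congr rfl (fun s _ => h3 s)]
      symm
      have h5 : ∑ s ∈ q.support, p (ι a) (monomial (s + β a) 1) * coeff s q =
          ∑ s ∈ q.support ∪ S, p (ι a) (monomial (s + β a) 1) * coeff s q := by
        apply Finset.sum_subset Finset.subset_union_left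
        intro s _ hs
        rw [notMem_support_iff.1 hs, mul_zero]
      rw [h5]
      symm
      apply Finset.sum_subset Finset.subset_union_right
      intro s hs1 hs2
      by_cases hs3 : s ∈ q.support
      · have h6 : ∃ j : Fin m, m' ≤ (j : ℕ) ∧ s j ≠ 0 := by
          by_contra hne
          push Not at hne
          exact hs2 ((hS s).2 ⟨hcoef s hs3, hne⟩)
        obtain ⟨j, hj, hsj⟩ := h6
        have h7 := mono_kill (hp (ι a)) hj hsj 1 (monomial (β a) 1)
        rw [monomial_mul, one_mul] at h7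
        rw [h7, zero_mul]
      · rw [notMem_support_iff.1 hs3, mul_zero]
    have hzero : (fun b : S => coeff b.1 q) = 0 := Matrix.eq_zero_of_mulVec_eq_zero hdet' hv
    intro i r
    rw [← support_sum_monomial_coeff q, Finset.sum_mul, map_sum]
    apply Finset.sum_eq_zero
    intro s hs
    by_cases hs1 : s ∈ S
    · have := congrFun hzero ⟨s, hs1⟩
      simp only [Pi.zero_apply] at this
      exact absurd this (mem_support_iff.1 hs)
    · have h6 : ∃ j : Fin m, m' ≤ (j : ℕ) ∧ s j ≠ 0 := by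
        by_contra hne
        push Not at hne
        exact hs1 ((hS s).2 ⟨hcoef s hs, hne⟩)
      obtain ⟨j, hj, hsj⟩ := h6
      exact mono_kill (hp i) hj hsj _ r

/-- general forms satisfy the criterion -/
theorem generic {m' d : ℕ} (hm : 1 ≤ m') (h1 : m' ≤ m) (h2 : m' ≤ n) (hd : 1 ≤ d) :
    ∃ Φ : MvPolynomial (Fin (n + 1) × Expo m m' (d - 1)) K, Φ ≠ 0 ∧
      ∀ p : Fin (n + 1) → (Pu m K →ₗ[K] K),
        (∀ i, ∀ j : Fin m, m' ≤ (j : ℕ) → ∀ r, p i (X j * r) = 0) →
        eval (coefs m' (d - 1) p) Φ ≠ 0 → HalfCrit d p := by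
  classical
  obtain ⟨S, hS⟩ : ∃ S : Finset (Fin m →₀ ℕ), ∀ a : Fin m →₀ ℕ, a ∈ S ↔
      a.degree = d / 2 ∧ ∀ j : Fin m, m' ≤ (j : ℕ) → a j = 0 := by
    refine ⟨((Finset.univ : Finset (Fin m)).finsuppAntidiag (d / 2)).filter
      (fun a => ∀ j : Fin m, m' ≤ (j : ℕ) → a j = 0), ?_⟩
    intro a
    rw [Finset.mem_filter, Finset.mem_finsuppAntidiag]
    constructor
    · rintro ⟨⟨ha, -⟩, hb⟩
      refine ⟨?_, hb⟩
      rw [Finsupp.degree_eq_sum]
      exact ha
    · rintro ⟨ha, hb⟩
      refine ⟨⟨?_, Finset.subset_univ _⟩, hb⟩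
      rw [Finsupp.degree_eq_sum] at ha
      exact ha
  have key : ∃ Φ : MvPolynomial (Fin (n + 1) × Expo m m' (d - 1)) K, Φ ≠ 0 ∧
      ∀ p : Fin (n + 1) → (Pu m K →ₗ[K] K),
        (∀ i, ∀ j : Fin m, m' ≤ (j : ℕ) → ∀ r, p i (X j * r) = 0) →
        eval (coefs m' (d - 1) p) Φ ≠ 0 →
        ∀ q ∈ Hs (Fin m) K (d / 2), (∀ i, i ≠ 0 → ∀ r, p i (q * r) = 0) → KA p q := by
    rcases Nat.even_or_odd' d with ⟨k, hk | hk⟩
    · have hk1 : 1 ≤ k := by omega
      have hk2 : d / 2 = k := by omega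
      have hex : ∀ a : S, ∃ j : Fin m, a.1 j ≠ 0 ∧ (j : ℕ) < m' := by
        intro a
        have ha := (hS a.1).1 a.2
        by_contra hne
        push Not at hne
        have h3 : a.1 = 0 := by
          ext j
          by_contra h4
          have h5 := hne j h4
          exact h4 (ha.2 j h5)
        have h4 := ha.1
        rw [h3, map_zero] at h4
        omega
      choose J hJ1 hJ2 using hex
      refine generic_aux (K := K) hS (fun a => ⟨(J a : ℕ) + 1, by have := hJ2 a; omega⟩)
        (fun a => a.1 - Finsupp.single (J a) 1)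
        (fun i c => if h : (i : ℕ) - 1 < m then nrm (c + Finsupp.single ⟨(i : ℕ) - 1, h⟩ 1) else 0)
        ?_ ?_ ?_ ?_
      · intro a h
        have := congrArg Fin.val h
        simp at this
      · intro a
        have ha := (hS a.1).1 a.2
        have h3 : a.1 = (a.1 - Finsupp.single (J a) 1) + Finsupp.single (J a) 1 := by
          rw [tsub_add_cancel_of_le]
          rw [Finsupp.single_le_iff]
          have := hJ1 a
          omega
        have h4 := congrArg Finsupp.degree h3
        rw [map_add, ha.1, Finsupp.degree_single] at h4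
        omega
      · intro a j hj
        have ha := (hS a.1).1 a.2
        rw [Finsupp.tsub_apply, ha.2 j hj, Nat.zero_sub]
      · intro a b
        have h3 : ((⟨(J a : ℕ) + 1, by have := hJ2 a; omega⟩ : Fin (n + 1)) : ℕ) - 1 < m := by
          simp
        rw [dif_pos h3]
        have h4 : (⟨((⟨(J a : ℕ) + 1, by have := hJ2 a; omega⟩ : Fin (n + 1)) : ℕ) - 1, h3⟩ : Fin m)
            = J a := by
          ext
          simp
        rw [h4, add_assoc, tsub_add_cancel_of_le, add_comm]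
        rw [Finsupp.single_le_iff]
        have := hJ1 a
        omega
    · have hk2 : d / 2 = k := by omega
      refine generic_aux (K := K) hS (fun _ => ⟨1, by omega⟩) (fun a => a.1) (fun _ c => nrm c)
        ?_ ?_ ?_ ?_
      · intro a h
        have := congrArg Fin.val h
        simp at this
      · intro a
        have ha := (hS a.1).1 a.2
        rw [ha.1]
        omega
      · intro a j hj
        exact ((hS a.1).1 a.2).2 j hj
      · intro a b
        rw [add_comm]
  obtain ⟨Φ, hΦ, h⟩ := key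
  refine ⟨Φ, hΦ, fun p hp he => ⟨Pi.single 0 1, ?_, ?_⟩⟩
  · intro h0
    have := congrFun h0 0
    simp at this
  · intro q hq hq2
    apply h p hp he q hq
    intro i hi r
    have h3 := hq2 (Pi.single i 1) (by
      simp only [Pi.single_apply, mul_ite, mul_one, mul_zero, Finset.sum_ite_eq', Finset.mem_univ,
        if_true]
      rw [if_neg hi]) r
    simpa only [Pi.single_apply, ite_mul, one_mul, zero_mul, Finset.sum_ite_eq', Finset.mem_univ,
      if_true] using h3

end Generic

end Pool.Agent.PZG
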